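import Mathlib

/-!
Ultralimits of uniformly bounded holomorphic functions on the unit disc, and the automorphisms of
the disc.
-/

open Complex Metric Set Topology Filter

namespace Pool.Agent.Lib.MP_c6b81c_an

lemma exists_ultra_limit {X : Type*} [TopologicalSpace X] (𝒰 : Ultrafilter ℕ) (u : ℕ → X)
    {K : Set X} (hK : IsCompact K) (hu : ∀ i, u i ∈ K) : ∃ x ∈ K, Tendsto u 𝒰 (𝓝 x) := by
  obtain ⟨x, hx, hle⟩ := hK.ultrafilter_le_nhds (𝒰.map u) (by
    rw [le_principal_iff]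
    exact (Eventually.of_forall hu : ∀ᶠ i in (𝒰 : Filter ℕ), u i ∈ K))
  exact ⟨x, hx, hle⟩

/-- Montel's theorem along an ultrafilter. -/
theorem exists_holo_limit (h : ℕ → ℂ → ℂ) (R : ℝ)
    (hd : ∀ i, DifferentiableOn ℂ (h i) (ball 0 1))
    (hb : ∀ i, ∀ ζ ∈ ball (0 : ℂ) 1, ‖h i ζ‖ ≤ R) (𝒰 : Ultrafilter ℕ) :
    ∃ g : ℂ → ℂ, DifferentiableOn ℂ g (ball 0 1) ∧
      TendstoLocallyUniformlyOn h g (𝒰 : Filter ℕ) (ball 0 1) := by
  have hR : 0 ≤ R := (norm_nonneg _).trans (hb 0 0 (mem_ball_self one_pos))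
  have hlim : ∀ ζ : ℂ, ∃ y, ζ ∈ ball (0 : ℂ) 1 → Tendsto (fun i => h i ζ) 𝒰 (𝓝 y) := by
    intro ζ
    by_cases hζ : ζ ∈ ball (0 : ℂ) 1
    · obtain ⟨y, _, hy⟩ := exists_ultra_limit 𝒰 (fun i => h i ζ) (isCompact_closedBall (0 : ℂ) R)
        (fun i => by rw [mem_closedBall_zero_iff]; exact hb i ζ hζ)
      exact ⟨y, fun _ => hy⟩
    · exact ⟨0, fun h => absurd h hζ⟩
  choose g hg using hlim
  have hunif : TendstoLocallyUniformlyOn h g (𝒰 : Filter ℕ) (ball 0 1) := by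
    rw [Metric.tendstoLocallyUniformlyOn_iff]
    intro ε hε x hx
    set ρ : ℝ := 1 - ‖x‖ with hρ
    have hx1 : ‖x‖ < 1 := by simpa using hx
    have hρ0 : 0 < ρ := by linarith
    have hsub : ball x ρ ⊆ ball (0 : ℂ) 1 := by
      apply ball_subset_ball'
      rw [dist_zero_right]
      linarith
    set L : ℝ := (2 * R) / ρ with hL
    have hL0 : 0 ≤ L := by positivity
    have hlip : ∀ i, ∀ y ∈ ball x ρ, dist (h i y) (h i x) ≤ L * dist y x := by
      intro i y hy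
      apply dist_le_div_mul_dist_of_mapsTo_ball ((hd i).mono hsub) _ hy
      intro y' hy'
      rw [mem_closedBall, dist_eq_norm]
      calc ‖h i y' - h i x‖ ≤ ‖h i y'‖ + ‖h i x‖ := norm_sub_le _ _
        _ ≤ R + R := add_le_add (hb i _ (hsub hy')) (hb i _ hx)
        _ = 2 * R := by ring
    have hglip : ∀ y ∈ ball x ρ, dist (g y) (g x) ≤ L * dist y x := by
      intro y hy
      have h1 := hg y (hsub hy)
      have h2 := hg x hx
      exact le_of_tendsto (h1.dist h2) (Eventually.of_forall (fun i => hlip i y hy))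
    set η : ℝ := min ρ (ε / (3 * (L + 1))) with hη
    have hη0 : 0 < η := lt_min hρ0 (by positivity)
    refine ⟨ball x η, mem_nhdsWithin_of_mem_nhds (ball_mem_nhds x hη0), ?_⟩
    have hev : ∀ᶠ i in (𝒰 : Filter ℕ), dist (h i x) (g x) < ε / 3 :=
      (hg x hx).eventually (ball_mem_nhds (g x) (by positivity : 0 < ε / 3))
    filter_upwards [hev] with i hi y hy
    have hyρ : y ∈ ball x ρ := ball_subset_ball (min_le_left _ _) hy
    have hyd : L * dist y x ≤ ε / 3 := by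
      have h3 : dist y x ≤ ε / (3 * (L + 1)) := (le_of_lt hy).trans (min_le_right _ _)
      calc L * dist y x ≤ (L + 1) * (ε / (3 * (L + 1))) := by
            apply mul_le_mul (by linarith) h3 dist_nonneg (by linarith)
        _ = ε / 3 := by field_simp
    calc dist (g y) (h i y) ≤ dist (g y) (g x) + dist (g x) (h i x) + dist (h i x) (h i y) :=
          dist_triangle4 _ _ _ _
      _ < ε / 3 + ε / 3 + ε / 3 := by
          have h4 := hglip y hyρ
          have h5 := hlip i y hyρ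
          rw [dist_comm (g x), dist_comm (h i x) (h i y)]
          linarith
      _ = ε := by ring
  exact ⟨g, hunif.differentiableOn (Eventually.of_forall hd) isOpen_ball, hunif⟩

/-- If a finite product of holomorphic functions vanishes identically on the disc, then one of the
factors vanishes identically. -/
theorem exists_factor_zero {ι : Type*} (s : Finset ι) (φ : ι → ℂ → ℂ)
    (hφ : ∀ i ∈ s, DifferentiableOn ℂ (φ i) (ball 0 1))
    (hprod : ∀ ζ ∈ ball (0 : ℂ) 1, ∏ i ∈ s, φ i ζ = 0) :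
    ∃ i ∈ s, ∀ ζ ∈ ball (0 : ℂ) 1, φ i ζ = 0 := by
  by_contra hcon
  push Not at hcon
  have han : ∀ i ∈ s, AnalyticOnNhd ℂ (φ i) (ball 0 1) := fun i hi =>
    (hφ i hi).analyticOnNhd isOpen_ball
  have hne : ∀ i ∈ s, ∀ᶠ ζ in 𝓝[≠] (0 : ℂ), φ i ζ ≠ 0 := by
    intro i hi
    rcases (han i hi 0 (mem_ball_self one_pos)).eventually_eq_zero_or_eventually_ne_zero with h | h
    · exfalso
      obtain ⟨ζ, hζ, hζ0⟩ := hcon i hi
      apply hζ0
      exact (han i hi).eqOn_zero_of_preconnected_of_eventuallyEq_zero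
        (convex_ball _ _).isPreconnected (mem_ball_self one_pos) h hζ
    · exact h
  have hall : ∀ᶠ ζ in 𝓝[≠] (0 : ℂ), ∀ i ∈ s, φ i ζ ≠ 0 :=
    (Finset.eventually_all s).mpr hne
  have hball : ∀ᶠ ζ in 𝓝[≠] (0 : ℂ), ζ ∈ ball (0 : ℂ) 1 :=
    mem_nhdsWithin_of_mem_nhds (ball_mem_nhds _ one_pos)
  obtain ⟨ζ, h1, h2⟩ := (hall.and hball).exists
  exact (Finset.prod_ne_zero_iff.mpr h1) (hprod ζ h2)

/-- The disc automorphism `ζ ↦ (ζ + a) / (1 + ā ζ)`. -/
noncomputable def mob (a ζ : ℂ) : ℂ := (ζ + a) / (1 + (starRingEnd ℂ) a * ζ)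

lemma one_add_conj_mul_ne_zero {a ζ : ℂ} (ha : ‖a‖ < 1) (hζ : ‖ζ‖ < 1) :
    1 + (starRingEnd ℂ) a * ζ ≠ 0 := by
  intro h
  have h1 : ‖(starRingEnd ℂ) a * ζ‖ = 1 := by
    have : (starRingEnd ℂ) a * ζ = -1 := by linear_combination h
    rw [this]; simp
  rw [norm_mul, RCLike.norm_conj] at h1
  nlinarith [norm_nonneg a, norm_nonneg ζ]

lemma mob_mem {a ζ : ℂ} (ha : ‖a‖ < 1) (hζ : ‖ζ‖ < 1) : ‖mob a ζ‖ < 1 := by
  have hne := one_add_conj_mul_ne_zero ha hζ
  unfold mob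
  rw [norm_div, div_lt_one (norm_pos_iff.mpr hne)]
  have h1 : ‖ζ + a‖ ^ 2 < ‖1 + (starRingEnd ℂ) a * ζ‖ ^ 2 := by
    rw [← Complex.normSq_eq_norm_sq, ← Complex.normSq_eq_norm_sq]
    have ha2 : Complex.normSq a < 1 := by
      rw [Complex.normSq_eq_norm_sq]; nlinarith [norm_nonneg a]
    have hz2 : Complex.normSq ζ < 1 := by
      rw [Complex.normSq_eq_norm_sq]; nlinarith [norm_nonneg ζ]
    rw [Complex.normSq_apply] at ha2 hz2 ⊢
    rw [Complex.normSq_apply]
    simp only [Complex.add_re, Complex.add_im, Complex.mul_re, Complex.mul_im, Complex.conj_re,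
      Complex.conj_im, Complex.one_re, Complex.one_im]
    nlinarith [mul_pos (sub_pos.mpr ha2) (sub_pos.mpr hz2)]
  exact lt_of_pow_lt_pow_left₀ 2 (norm_nonneg _) h1

lemma mob_zero (a : ℂ) : mob a 0 = a := by simp [mob]

lemma mob_differentiableOn {a : ℂ} (ha : ‖a‖ < 1) : DifferentiableOn ℂ (mob a) (ball 0 1) := by
  intro ζ hζ
  have hne := one_add_conj_mul_ne_zero ha (by simpa using hζ : ‖ζ‖ < 1)
  apply DifferentiableAt.differentiableWithinAt
  unfold mob
  fun_prop (disch := exact hne)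

lemma mob_inv {a b : ℂ} (ha : ‖a‖ < 1) (hb : ‖b‖ < 1) :
    mob a ((b - a) / (1 - (starRingEnd ℂ) a * b)) = b := by
  have hne : 1 - (starRingEnd ℂ) a * b ≠ 0 := by
    have := one_add_conj_mul_ne_zero ha (by rwa [norm_neg] : ‖-b‖ < 1)
    simpa [sub_eq_add_neg] using this
  have hab : 1 - (starRingEnd ℂ) a * a ≠ 0 := by
    have := one_add_conj_mul_ne_zero ha (by rwa [norm_neg] : ‖-a‖ < 1)
    simpa [sub_eq_add_neg] using this
  unfold mob
  have hne2 : 1 + (starRingEnd ℂ) a * ((b - a) / (1 - (starRingEnd ℂ) a * b)) ≠ 0 := by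
    have : 1 + (starRingEnd ℂ) a * ((b - a) / (1 - (starRingEnd ℂ) a * b)) =
        (1 - (starRingEnd ℂ) a * a) / (1 - (starRingEnd ℂ) a * b) := by
      field_simp
      ring
    rw [this]
    exact div_ne_zero hab hne
  rw [div_eq_iff hne2]
  have h1 : (b - a) / (1 - (starRingEnd ℂ) a * b) * (1 - (starRingEnd ℂ) a * b) = b - a :=
    div_mul_cancel₀ _ hne
  linear_combination h1

end Pool.Agent.Lib.MP_c6b81c_an
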