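import Pool.Agent.Lib.MP_c6b81c_an.Example
import Pool.Agent.Lib.MP_c6b81c_an.Limit

/-!
Chains with a bounded number of discs of bounded length cannot travel along the zigzag.
-/

open Complex Metric Set Topology Filter

namespace Pool.Agent.Lib.MP_c6b81c_an

lemma poincareDist_nonneg (a b : ℂ) : 0 ≤ poincareDist a b :=
  Real.artanh_nonneg (norm_nonneg _)

lemma KobayashiChain.length_nonneg {n : ℕ} {Ω : Set (Cn n)} {k : ℕ} {z w : Cn n}
    (c : KobayashiChain Ω k z w) : 0 ≤ c.length :=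
  Finset.sum_nonneg (fun _ _ => poincareDist_nonneg _ _)

lemma kobayashiDist_le {n : ℕ} {Ω : Set (Cn n)} {k : ℕ} {z w : Cn n}
    (c : KobayashiChain Ω k z w) : kobayashiDist Ω z w ≤ c.length := by
  apply csInf_le
  · refine ⟨0, ?_⟩
    rintro L ⟨k', c', rfl⟩
    exact c'.length_nonneg
  · exact ⟨k, c, rfl⟩

/-- The chain along the zigzag. -/
noncomputable def zigChain {m N : ℕ} {Ω : Set (Cn (m + 2))}
    (h : ∀ j ≤ 2 * N, MapsTo (disc m j) (ball 0 1) Ω) :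
    KobayashiChain Ω (2 * N) (vec m 0 0) (vec m N N) where
  p := fun j => disc m j (-(1 / 2))
  f := fun j => disc m j
  a := fun _ => -(1 / 2)
  b := fun _ => 1 / 2
  start := by simp [disc]
  finish := by
    have h1 : Even (2 * N) := even_two_mul N
    have e1 : 2 * N / 2 = N := by omega
    simp only [disc, h1, if_true, e1]
    congr 1
    ring
  mem := fun j hj => h j hj (by simp; norm_num)
  holo := fun j _ => (disc_differentiable m j).differentiableOn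
  maps := fun j hj => h j hj.le
  a_mem := fun j _ => by simp; norm_num
  b_mem := fun j _ => by simp; norm_num
  f_a := fun j _ => rfl
  f_b := fun j _ => disc_link m j

lemma zigChain_length {m N : ℕ} {Ω : Set (Cn (m + 2))}
    (h : ∀ j ≤ 2 * N, MapsTo (disc m j) (ball 0 1) Ω) :
    (zigChain h).length = 2 * N * poincareDist (-(1 / 2)) (1 / 2) := by
  unfold KobayashiChain.length
  simp [zigChain]

lemma norm_lt_one_of_quot {a b : ℂ} (ha : ‖a‖ < 1) (hb : ‖b‖ < 1) :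
    ‖(a - b) / (1 - (starRingEnd ℂ) a * b)‖ < 1 := by
  have h1 := mob_mem (a := -a) (ζ := b) (by rwa [norm_neg]) hb
  unfold mob at h1
  have h2 : (b + -a) / (1 + (starRingEnd ℂ) (-a) * b) =
      -((a - b) / (1 - (starRingEnd ℂ) a * b)) := by
    rw [map_neg, ← neg_div]
    congr 1 <;> ring
  rwa [h2, norm_neg] at h1

lemma norm_quot_le {a b : ℂ} (ha : ‖a‖ < 1) (hb : ‖b‖ < 1) {C : ℝ}
    (h : poincareDist a b ≤ C) :
    ‖(b - a) / (1 - (starRingEnd ℂ) a * b)‖ ≤ Real.tanh C := by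
  have h1 := norm_lt_one_of_quot ha hb
  have h2 : ‖(b - a) / (1 - (starRingEnd ℂ) a * b)‖ = ‖(a - b) / (1 - (starRingEnd ℂ) a * b)‖ := by
    rw [norm_div, norm_div, norm_sub_rev]
  rw [h2]
  unfold poincareDist at h
  rw [← Real.artanh_le_artanh_iff ⟨by linarith [norm_nonneg ((a - b) / (1 - (starRingEnd ℂ) a * b))],
    h1⟩ ⟨Real.neg_one_lt_tanh C, Real.tanh_lt_one C⟩, Real.artanh_tanh]
  exact h

lemma coord_tendsto_bound {m : ℕ} {R : ℝ} {Ω : ℕ → Set (Cn (m + 2))}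
    (hR : ∀ i, ∀ x ∈ Ω i, ‖x‖ ≤ R) (x : ℕ → Cn (m + 2)) (hx : ∀ i, x i ∈ Ω i)
    (𝒰 : Ultrafilter ℕ) (k : Fin (m + 2)) :
    ∃ y, Tendsto (fun i => (x i) k) 𝒰 (𝓝 y) := by
  obtain ⟨y, _, hy⟩ := exists_ultra_limit 𝒰 (fun i => (x i) k) (isCompact_closedBall (0 : ℂ) R)
    (fun i => by
      rw [mem_closedBall_zero_iff]
      exact (PiLp.norm_apply_le (x i) k).trans (hR i _ (hx i)))
  exact ⟨y, hy⟩

/-- One disc moves `x₀ + x₁` by at most `3` in the limit. -/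
lemma step_bound {m N : ℕ} {R r : ℝ} (hr : r < 1) {Ω : ℕ → Set (Cn (m + 2))}
    (hΩ : ∀ i, ∀ x ∈ Ω i, ((i : ℝ) + 1) * ‖zig N x‖ ^ 2 ≤ 2 ∧ ‖x 0 - x 1 - 1 / 2‖ ≤ 3 / 2 ∧
      ‖x‖ ≤ R)
    (𝒰 : Ultrafilter ℕ) (h𝒰 : (𝒰 : Filter ℕ) ≤ atTop)
    (G : ℕ → ℂ → Cn (m + 2)) (hG : ∀ i, DifferentiableOn ℂ (G i) (ball 0 1))
    (hGm : ∀ i, MapsTo (G i) (ball 0 1) (Ω i)) (b : ℕ → ℂ) (hb : ∀ i, ‖b i‖ ≤ r)
    {p0 p1 q0 q1 : ℂ}
    (hp0 : Tendsto (fun i => (G i 0) 0) 𝒰 (𝓝 p0)) (hp1 : Tendsto (fun i => (G i 0) 1) 𝒰 (𝓝 p1))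
    (hq0 : Tendsto (fun i => (G i (b i)) 0) 𝒰 (𝓝 q0))
    (hq1 : Tendsto (fun i => (G i (b i)) 1) 𝒰 (𝓝 q1)) :
    ‖(q0 + q1) - (p0 + p1)‖ ≤ 3 := by
  have hcoord : ∀ k : Fin (m + 2), ∀ i, DifferentiableOn ℂ (fun ζ => (G i ζ) k) (ball 0 1) := by
    intro k i
    exact ((EuclideanSpace.proj (𝕜 := ℂ) k : Cn (m + 2) →L[ℂ] ℂ).differentiable).comp_differentiableOn
      (hG i)
  have hbound : ∀ k : Fin (m + 2), ∀ i, ∀ ζ ∈ ball (0 : ℂ) 1, ‖(G i ζ) k‖ ≤ R := by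
    intro k i ζ hζ
    exact (PiLp.norm_apply_le (G i ζ) k).trans (hΩ i _ (hGm i hζ)).2.2
  obtain ⟨g0, hg0d, hg0⟩ := exists_holo_limit (fun i ζ => (G i ζ) 0) R (hcoord 0) (hbound 0) 𝒰
  obtain ⟨g1, hg1d, hg1⟩ := exists_holo_limit (fun i ζ => (G i ζ) 1) R (hcoord 1) (hbound 1) 𝒰
  -- limit of the points b i
  obtain ⟨b', hb'mem, hb'⟩ := exists_ultra_limit 𝒰 b (isCompact_closedBall (0 : ℂ) r)
    (fun i => by rw [mem_closedBall_zero_iff]; exact hb i)
  have hb'1 : b' ∈ ball (0 : ℂ) 1 := by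
    rw [mem_closedBall_zero_iff] at hb'mem
    rw [mem_ball_zero_iff]
    linarith
  have h01 : (0 : ℂ) ∈ ball (0 : ℂ) 1 := mem_ball_self one_pos
  have hbw : Tendsto b 𝒰 (𝓝[ball (0 : ℂ) 1] b') := by
    rw [tendsto_nhdsWithin_iff]
    refine ⟨hb', Eventually.of_forall (fun i => ?_)⟩
    rw [mem_ball_zero_iff]
    exact (hb i).trans_lt hr
  -- pointwise limits
  have t0 : ∀ ζ ∈ ball (0 : ℂ) 1, Tendsto (fun i => (G i ζ) 0) 𝒰 (𝓝 (g0 ζ)) := fun ζ hζ =>
    hg0.tendsto_at hζ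
  have t1 : ∀ ζ ∈ ball (0 : ℂ) 1, Tendsto (fun i => (G i ζ) 1) 𝒰 (𝓝 (g1 ζ)) := fun ζ hζ =>
    hg1.tendsto_at hζ
  have e_p0 : p0 = g0 0 := tendsto_nhds_unique hp0 (t0 0 h01)
  have e_p1 : p1 = g1 0 := tendsto_nhds_unique hp1 (t1 0 h01)
  have e_q0 : q0 = g0 b' := tendsto_nhds_unique hq0
    (hg0.tendsto_comp (hg0d.continuousOn b' hb'1) hb'1 hbw)
  have e_q1 : q1 = g1 b' := tendsto_nhds_unique hq1
    (hg1.tendsto_comp (hg1d.continuousOn b' hb'1) hb'1 hbw)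
  -- region
  have hreg : ∀ ζ ∈ ball (0 : ℂ) 1, ‖g0 ζ - g1 ζ - 1 / 2‖ ≤ 3 / 2 := by
    intro ζ hζ
    exact le_of_tendsto (((t0 ζ hζ).sub (t1 ζ hζ)).sub_const (1 / 2)).norm
      (Eventually.of_forall (fun i => (hΩ i _ (hGm i hζ)).2.1))
  -- the equation
  have hz : ∀ ζ ∈ ball (0 : ℂ) 1,
      ∏ k ∈ Finset.range (N + 1), ((g1 ζ - (k : ℂ)) * (g0 ζ - ((k : ℂ) + 1))) = 0 := by
    intro ζ hζ
    have h1 : Tendsto (fun i => zig N (G i ζ)) 𝒰
        (𝓝 (∏ k ∈ Finset.range (N + 1), ((g1 ζ - (k : ℂ)) * (g0 ζ - ((k : ℂ) + 1))))) := by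
      unfold zig
      apply tendsto_finsetProd
      intro k _
      exact ((t1 ζ hζ).sub_const _).mul ((t0 ζ hζ).sub_const _)
    have h2 : Tendsto (fun i => zig N (G i ζ)) 𝒰 (𝓝 0) := by
      rw [tendsto_zero_iff_norm_tendsto_zero]
      have h3 : Tendsto (fun i : ℕ => Real.sqrt (2 / ((i : ℝ) + 1))) 𝒰 (𝓝 0) := by
        have h4 : Tendsto (fun i : ℕ => Real.sqrt (2 / ((i : ℝ) + 1))) atTop (𝓝 0) := by
          have h5 : Tendsto (fun i : ℕ => 2 / ((i : ℝ) + 1)) atTop (𝓝 0) := by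
            have := tendsto_one_div_add_atTop_nhds_zero_nat (𝕜 := ℝ)
            have h6 := this.const_mul 2
            rw [mul_zero] at h6
            refine h6.congr (fun i => ?_)
            rw [mul_one_div]
          have h7 := (Real.continuous_sqrt.tendsto 0).comp h5
          rw [Real.sqrt_zero] at h7
          exact h7
        exact h4.mono_left h𝒰
      refine squeeze_zero (fun i => norm_nonneg _) (fun i => ?_) h3
      have h8 := (hΩ i _ (hGm i hζ)).1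
      have hi : (0 : ℝ) < (i : ℝ) + 1 := by positivity
      apply Real.le_sqrt_of_sq_le
      rw [le_div_iff₀ hi]
      linarith
    exact tendsto_nhds_unique h1 h2
  obtain ⟨k, _, hk⟩ := exists_factor_zero (Finset.range (N + 1))
    (fun k ζ => (g1 ζ - (k : ℂ)) * (g0 ζ - ((k : ℂ) + 1)))
    (fun k _ => (hg1d.sub_const _).mul (hg0d.sub_const _)) hz
  obtain ⟨l, _, hl⟩ := exists_factor_zero (Finset.univ : Finset (Fin 2))
    ![fun ζ => g1 ζ - (k : ℂ), fun ζ => g0 ζ - ((k : ℂ) + 1)]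
    (by
      intro i _
      fin_cases i
      · exact hg1d.sub_const _
      · exact hg0d.sub_const _)
    (by
      intro ζ hζ
      rw [Fin.prod_univ_two]
      exact hk ζ hζ)
  rw [e_p0, e_p1, e_q0, e_q1]
  have r1 := hreg 0 h01
  have r2 := hreg b' hb'1
  fin_cases l
  · have h1 : g1 0 = k := sub_eq_zero.mp (hl 0 h01)
    have h2 : g1 b' = k := sub_eq_zero.mp (hl b' hb'1)
    have h3 : g0 b' + g1 b' - (g0 0 + g1 0) =
        (g0 b' - g1 b' - 1 / 2) - (g0 0 - g1 0 - 1 / 2) := by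
      rw [h1, h2]; ring
    rw [h3]
    refine (norm_sub_le _ _).trans ?_
    linarith
  · have h1 : g0 0 = (k : ℂ) + 1 := sub_eq_zero.mp (hl 0 h01)
    have h2 : g0 b' = (k : ℂ) + 1 := sub_eq_zero.mp (hl b' hb'1)
    have h3 : g0 b' + g1 b' - (g0 0 + g1 0) =
        (g0 0 - g1 0 - 1 / 2) - (g0 b' - g1 b' - 1 / 2) := by
      rw [h1, h2]; ring
    rw [h3]
    refine (norm_sub_le _ _).trans ?_
    linarith

/-- Chains of `K` discs of length at most `C` cannot join `(0,0,…)` to `(N,N,0,…)` in all the thin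
neighbourhoods, if `3 K < 2 N`. -/
theorem no_short_chains {m K N : ℕ} {R C : ℝ} (hN : 3 * K < 2 * N) {Ω : ℕ → Set (Cn (m + 2))}
    (hΩ : ∀ i, ∀ x ∈ Ω i, ((i : ℝ) + 1) * ‖zig N x‖ ^ 2 ≤ 2 ∧ ‖x 0 - x 1 - 1 / 2‖ ≤ 3 / 2 ∧
      ‖x‖ ≤ R)
    (c : ∀ i, KobayashiChain (Ω i) K (vec m 0 0) (vec m N N)) (hC : ∀ i, (c i).length ≤ C) :
    False := by
  set 𝒰 : Ultrafilter ℕ := hyperfilter ℕ with h𝒰def
  have h𝒰 : (𝒰 : Filter ℕ) ≤ atTop := by
    rw [← Nat.cofinite_eq_atTop]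
    exact hyperfilter_le_cofinite
  have hR : ∀ i, ∀ x ∈ Ω i, ‖x‖ ≤ R := fun i x hx => (hΩ i x hx).2.2
  have hlim : ∀ j : ℕ, ∃ L : ℂ × ℂ, j ≤ K → Tendsto (fun i => ((c i).p j) 0) 𝒰 (𝓝 L.1) ∧
      Tendsto (fun i => ((c i).p j) 1) 𝒰 (𝓝 L.2) := by
    intro j
    by_cases hj : j ≤ K
    · obtain ⟨y0, h0⟩ := coord_tendsto_bound hR (fun i => (c i).p j) (fun i => (c i).mem j hj) 𝒰 0
      obtain ⟨y1, h1⟩ := coord_tendsto_bound hR (fun i => (c i).p j) (fun i => (c i).mem j hj) 𝒰 1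
      exact ⟨(y0, y1), fun _ => ⟨h0, h1⟩⟩
    · exact ⟨0, fun h => absurd h hj⟩
  choose L hL using hlim
  have hstep : ∀ j < K, ‖((L (j + 1)).1 + (L (j + 1)).2) - ((L j).1 + (L j).2)‖ ≤ 3 := by
    intro j hj
    have ha : ∀ i, ‖(c i).a j‖ < 1 := fun i => by simpa using (c i).a_mem j hj
    have hb : ∀ i, ‖(c i).b j‖ < 1 := fun i => by simpa using (c i).b_mem j hj
    have hlen : ∀ i, poincareDist ((c i).a j) ((c i).b j) ≤ C := by
      intro i
      refine le_trans ?_ (hC i)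
      unfold KobayashiChain.length
      exact Finset.single_le_sum (f := fun j => poincareDist ((c i).a j) ((c i).b j))
        (fun _ _ => poincareDist_nonneg _ _) (Finset.mem_range.mpr hj)
    have hlt : Real.tanh C < 1 := Real.tanh_lt_one C
    have hG0 : ∀ i, (c i).f j (mob ((c i).a j) 0) = (c i).p j := by
      intro i
      rw [mob_zero]
      exact (c i).f_a j hj
    have hGb : ∀ i, (c i).f j (mob ((c i).a j) (((c i).b j - (c i).a j) /
        (1 - (starRingEnd ℂ) ((c i).a j) * (c i).b j))) = (c i).p (j + 1) := by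
      intro i
      rw [mob_inv (ha i) (hb i)]
      exact (c i).f_b j hj
    have hmobmaps : ∀ i, MapsTo (mob ((c i).a j)) (ball 0 1) (ball 0 1) := by
      intro i ζ hζ
      rw [mem_ball_zero_iff] at hζ ⊢
      exact mob_mem (ha i) hζ
    refine step_bound hlt hΩ 𝒰 h𝒰 (fun i ζ => (c i).f j (mob ((c i).a j) ζ)) ?_ ?_
      (fun i => ((c i).b j - (c i).a j) / (1 - (starRingEnd ℂ) ((c i).a j) * (c i).b j)) ?_
      ?_ ?_ ?_ ?_
    · intro i
      exact ((c i).holo j hj).comp (mob_differentiableOn (ha i)) (hmobmaps i)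
    · intro i ζ hζ
      exact (c i).maps j hj (hmobmaps i hζ)
    · intro i
      exact norm_quot_le (ha i) (hb i) (hlen i)
    · simp only [hG0]
      exact (hL j hj.le).1
    · simp only [hG0]
      exact (hL j hj.le).2
    · simp only [hGb]
      exact (hL (j + 1) hj).1
    · simp only [hGb]
      exact (hL (j + 1) hj).2
  have hsum : ∀ j ≤ K, ‖((L j).1 + (L j).2) - ((L 0).1 + (L 0).2)‖ ≤ 3 * j := by
    intro j
    induction j with
    | zero => intro _; simp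
    | succ j ih =>
      intro hj
      have h1 := ih (by omega)
      have h2 := hstep j (by omega)
      have h3 : ((L (j + 1)).1 + (L (j + 1)).2) - ((L 0).1 + (L 0).2) =
          (((L (j + 1)).1 + (L (j + 1)).2) - ((L j).1 + (L j).2)) +
          (((L j).1 + (L j).2) - ((L 0).1 + (L 0).2)) := by ring
      rw [h3]
      refine (norm_add_le _ _).trans ?_
      push_cast
      linarith
  have hL00 : (L 0).1 = 0 ∧ (L 0).2 = 0 := by
    have h := hL 0 (Nat.zero_le _)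
    simp only [(c _).start, vec_zero, vec_one] at h
    exact ⟨tendsto_nhds_unique h.1 tendsto_const_nhds, tendsto_nhds_unique h.2 tendsto_const_nhds⟩
  have hLK : (L K).1 = N ∧ (L K).2 = N := by
    have h := hL K le_rfl
    simp only [(c _).finish, vec_zero, vec_one] at h
    exact ⟨tendsto_nhds_unique h.1 tendsto_const_nhds, tendsto_nhds_unique h.2 tendsto_const_nhds⟩
  have hfin := hsum K le_rfl
  rw [hL00.1, hL00.2, hLK.1, hLK.2] at hfin
  have h5 : ((N : ℂ) + N - (0 + 0)) = ((2 * N : ℕ) : ℂ) := by push_cast; ring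
  rw [h5, Complex.norm_natCast] at hfin
  have h6 : ((3 * K : ℕ) : ℝ) < ((2 * N : ℕ) : ℝ) := by exact_mod_cast hN
  push_cast at h6 hfin
  linarith

end Pool.Agent.Lib.MP_c6b81c_an
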