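import Pool.Agent.Lib.MP_c6b81c_an.Defs

/-!
A connected component of a bounded regular sublevel set of a strictly plurisubharmonic `C²`
function is a strongly pseudoconvex domain.
-/

open Complex Metric Set Topology

namespace Pool.Agent.Lib.MP_c6b81c_an

section Local

variable {E : Type*} [NormedAddCommGroup E] [NormedSpace ℝ E]

/-- Near a regular boundary point of the sublevel set `{f < c}`, the sublevel set is contained in
one connected component. -/
lemma local_component (f : E → ℝ) {c : ℝ} {q : E} {f' : E →L[ℝ] ℝ}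
    (hf : HasStrictFDerivAt f f' q) (hf' : f' ≠ 0) (hq : f q = c) :
    ∃ (pt : E) (η : ℝ), 0 < η ∧ f pt < c ∧ ∀ x ∈ ball q η, f x < c →
      pt ∈ connectedComponentIn {y | f y < c} x := by
  obtain ⟨u, hu⟩ : ∃ u, f' u = -1 := by
    obtain ⟨v, hv⟩ := DFunLike.ne_iff.mp hf'
    have hv' : f' v ≠ 0 := by simpa using hv
    refine ⟨(-(f' v)⁻¹) • v, ?_⟩
    rw [map_smul, smul_eq_mul, neg_mul, inv_mul_cancel₀ hv']
  have hu0 : 0 < ‖u‖ := by
    rw [norm_pos_iff]
    rintro rfl
    simp at hu
  set ε : ℝ := 1 / (2 * ‖u‖) with hε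
  have hεpos : 0 < ε := by positivity
  have h1 := hf.isLittleO.def hεpos
  rw [Filter.eventually_iff, Metric.mem_nhds_iff] at h1
  obtain ⟨R, hR, hsub⟩ := h1
  have key : ∀ x ∈ ball q R, ∀ y ∈ ball q R, |f x - f y - f' (x - y)| ≤ ε * ‖x - y‖ := by
    intro x hx y hy
    have hxy : (x, y) ∈ ball (q, q) R := by
      rw [mem_ball, Prod.dist_eq]
      exact max_lt hx hy
    have := hsub hxy
    simpa [Real.norm_eq_abs] using this
  -- step length
  set T : ℝ := R / (2 * (‖u‖ + 1)) with hT
  have hTpos : 0 < T := by positivity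
  have hTu : T * ‖u‖ ≤ R / 2 := by
    rw [hT, div_mul_eq_mul_div, div_le_div_iff₀ (by positivity) (by norm_num)]
    nlinarith
  set L : ℝ := ‖f'‖ + ε with hL
  have hLpos : 0 < L := by
    have := norm_nonneg f'
    rw [hL]; linarith
  set η : ℝ := min (R / 2) (T / (4 * L)) with hη
  have hηpos : 0 < η := lt_min (by positivity) (by positivity)
  have hηR : η ≤ R / 2 := min_le_left _ _
  have hηL : L * η ≤ T / 4 := by
    calc L * η ≤ L * (T / (4 * L)) := by
          apply mul_le_mul_of_nonneg_left (min_le_right _ _) hLpos.le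
      _ = T / 4 := by field_simp
  -- descending along `u`
  have hdesc : ∀ x ∈ ball q η, ∀ t ∈ Icc (0 : ℝ) T, x + t • u ∈ ball q R ∧
      f (x + t • u) ≤ f x - t / 2 := by
    intro x hx t ht
    have hxR : x ∈ ball q R := ball_subset_ball (by linarith) hx
    have hmem : x + t • u ∈ ball q R := by
      rw [mem_ball, dist_eq_norm] at hx ⊢
      calc ‖x + t • u - q‖ = ‖(x - q) + t • u‖ := by congr 1; abel
        _ ≤ ‖x - q‖ + ‖t • u‖ := norm_add_le _ _
        _ = ‖x - q‖ + t * ‖u‖ := by rw [norm_smul, Real.norm_eq_abs, abs_of_nonneg ht.1]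
        _ < η + R / 2 := by
            have : t * ‖u‖ ≤ T * ‖u‖ := mul_le_mul_of_nonneg_right ht.2 hu0.le
            linarith
        _ ≤ R := by linarith
    refine ⟨hmem, ?_⟩
    have h2 := key (x + t • u) hmem x hxR
    rw [add_sub_cancel_left, map_smul, hu, norm_smul, Real.norm_eq_abs, abs_of_nonneg ht.1,
      smul_eq_mul] at h2
    have h3 := (abs_le.mp h2).2
    have h4 : ε * (t * ‖u‖) = t / 2 := by
      rw [hε]
      field_simp
    rw [h4] at h3
    linarith
  have hlip : ∀ x ∈ ball q R, ∀ y ∈ ball q R, f x ≤ f y + L * ‖x - y‖ := by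
    intro x hx y hy
    have h2 := (abs_le.mp (key x hx y hy)).2
    have h3 : f' (x - y) ≤ ‖f'‖ * ‖x - y‖ := (le_abs_self _).trans (f'.le_opNorm _)
    rw [hL]
    nlinarith
  have hqη : q ∈ ball q η := mem_ball_self hηpos
  refine ⟨q + T • u, η, hηpos, ?_, ?_⟩
  · have := (hdesc q hqη T ⟨hTpos.le, le_refl _⟩).2
    rw [hq] at this
    linarith
  · intro x hx hfx
    -- connected set: segment x → x + T u, then x + T u → q + T u
    set s1 : Set E := segment ℝ x (x + T • u) with hs1
    set s2 : Set E := segment ℝ (x + T • u) (q + T • u) with hs2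
    have hs1U : s1 ⊆ {y | f y < c} := by
      rintro y hy
      rw [hs1, segment_eq_image'] at hy
      obtain ⟨θ, hθ, rfl⟩ := hy
      have hy' : x + θ • (x + T • u - x) = x + (θ * T) • u := by
        rw [add_sub_cancel_left, smul_smul]
      simp only [mem_ofPred_eq]
      rw [hy']
      have := (hdesc x hx (θ * T) ⟨mul_nonneg hθ.1 hTpos.le, by nlinarith [hθ.2]⟩).2
      have h5 : 0 ≤ θ * T := mul_nonneg hθ.1 hTpos.le
      linarith
    have hs2U : s2 ⊆ {y | f y < c} := by
      rintro y hy
      have hxT := hdesc x hx T ⟨hTpos.le, le_refl _⟩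
      have hqT := hdesc q hqη T ⟨hTpos.le, le_refl _⟩
      have hyR : y ∈ ball q R := (convex_ball q R).segment_subset hxT.1 hqT.1 hy
      have hyd : ‖y - (x + T • u)‖ ≤ η := by
        rw [hs2, segment_eq_image'] at hy
        obtain ⟨θ, hθ, rfl⟩ := hy
        have : (x + T • u + θ • (q + T • u - (x + T • u))) - (x + T • u) = θ • (q - x) := by
          rw [add_sub_cancel_left, add_sub_add_right_eq_sub]
        rw [this, norm_smul, Real.norm_eq_abs, abs_of_nonneg hθ.1]
        have hx' : ‖q - x‖ < η := by
          rw [mem_ball, dist_comm, dist_eq_norm] at hx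
          exact hx
        nlinarith [hθ.1, hθ.2, norm_nonneg (q - x)]
      have h6 := hlip y hyR (x + T • u) hxT.1
      have h7 : L * ‖y - (x + T • u)‖ ≤ L * η := mul_le_mul_of_nonneg_left hyd hLpos.le
      simp only [mem_ofPred_eq]
      linarith [hxT.2]
    have hconn : IsPreconnected (s1 ∪ s2) := by
      apply IsPreconnected.union (x + T • u)
      · exact right_mem_segment ℝ _ _
      · exact left_mem_segment ℝ _ _
      · exact (convex_segment _ _).isPreconnected
      · exact (convex_segment _ _).isPreconnected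
    have hsub' := hconn.subset_connectedComponentIn (x := x)
      (Or.inl (left_mem_segment ℝ _ _)) (union_subset hs1U hs2U)
    exact hsub' (Or.inr (right_mem_segment ℝ _ _))

end Local

/-- A component of a bounded regular sublevel set `{f < c}` of a strictly plurisubharmonic `C²`
function is a strongly pseudoconvex domain. -/
theorem component_spd {n : ℕ} (f : Cn n → ℝ) (hf : ContDiff ℝ 2 f) (c : ℝ)
    (hreg : ∀ x, f x = c → fderiv ℝ f x ≠ 0)
    (hbd : Bornology.IsBounded {x | f x < c})
    (hlevi : ∀ x v, v ≠ 0 → 0 < leviForm f x v)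
    (y : Cn n) (hy : f y < c) :
    IsStronglyPseudoconvexDomain (connectedComponentIn {x | f x < c} y) := by
  set U : Set (Cn n) := {x | f x < c} with hU
  set Ω : Set (Cn n) := connectedComponentIn U y with hΩ
  have hUo : IsOpen U := isOpen_lt hf.continuous continuous_const
  have hΩo : IsOpen Ω := hUo.connectedComponentIn
  have hΩU : Ω ⊆ U := connectedComponentIn_subset _ _
  have hΩc : IsConnected Ω := isConnected_connectedComponentIn_iff.mpr hy
  -- frontier points
  have hfr : ∀ q ∈ frontier Ω, f q = c := by
    intro q hq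
    have hqc : q ∈ closure Ω := frontier_subset_closure hq
    have hqn : q ∉ Ω := by
      rw [hΩo.frontier_eq] at hq
      exact hq.2
    have hle : f q ≤ c := by
      have : closure Ω ⊆ {x | f x ≤ c} := by
        apply closure_minimal _ (isClosed_le hf.continuous continuous_const)
        intro x hx
        have h : f x < c := hΩU hx
        exact h.le
      exact this hqc
    rcases hle.lt_or_eq with hlt | heq
    · exfalso
      apply hqn
      have hpre : IsPreconnected (insert q Ω) := by
        apply IsPreconnected.subset_closure hΩc.isPreconnected (subset_insert _ _)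
        intro x hx
        rcases hx with rfl | hx
        · exact hqc
        · exact subset_closure hx
      have := hpre.subset_connectedComponentIn (F := U) (x := y)
        (Or.inr (mem_connectedComponentIn hy)) (insert_subset_iff.mpr ⟨hlt, hΩU⟩)
      exact this (mem_insert _ _)
    · exact heq
  set W : Set (Cn n) := U \ Ω with hW
  have hdisj : ∀ q ∈ frontier Ω, q ∉ closure W := by
    intro q hq hqW
    have hfq := hfr q hq
    have hstrict : HasStrictFDerivAt f (fderiv ℝ f q) q :=
      hf.contDiffAt.hasStrictFDerivAt (by norm_num)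
    obtain ⟨pt, η, hη, hpt, hcomp⟩ := local_component f hstrict (hreg q hfq) hfq
    obtain ⟨x, hx1, hx2⟩ := Metric.mem_closure_iff.mp (frontier_subset_closure hq) η hη
    obtain ⟨x', hx1', hx2'⟩ := Metric.mem_closure_iff.mp hqW η hη
    have h1 := hcomp x (by rw [mem_ball, dist_comm]; exact hx2) (hΩU hx1)
    have h2 := hcomp x' (by rw [mem_ball, dist_comm]; exact hx2') hx1'.1
    have e1 : connectedComponentIn U x = connectedComponentIn U pt := connectedComponentIn_eq h1
    have e2 : connectedComponentIn U x' = connectedComponentIn U pt := connectedComponentIn_eq h2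
    have e3 : connectedComponentIn U y = connectedComponentIn U x := connectedComponentIn_eq hx1
    apply hx1'.2
    rw [hΩ, e3, e1, ← e2]
    exact mem_connectedComponentIn hx1'.1
  have hfd : fderiv ℝ (fun x => f x - c) = fderiv ℝ f := by
    ext x : 1
    exact fderiv_sub_const c
  refine ⟨hΩo, hΩc, hbd.subset hΩU, (closure W)ᶜ, fun x => f x - c, isClosed_closure.isOpen_compl,
    hdisj, (hf.sub contDiff_const).contDiffOn, ?_, ?_, ?_⟩
  · ext x
    constructor
    · rintro ⟨hx1, hx2⟩
      exact ⟨hx2, by have := hΩU hx1; simp only [hU, mem_ofPred_eq] at this; linarith⟩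
    · rintro ⟨hx1, hx2⟩
      refine ⟨?_, hx1⟩
      by_contra hcon
      apply hx1
      apply subset_closure
      exact ⟨by simp only [hU, mem_ofPred_eq]; linarith, hcon⟩
  · intro q hq
    refine ⟨by show f q - c = 0; rw [hfr q hq, sub_self], ?_⟩
    rw [hfd]
    exact hreg q (hfr q hq)
  · intro q _ v hv _ _
    have := hlevi q v hv
    unfold leviForm at this ⊢
    rw [hfd]
    exact this

end Pool.Agent.Lib.MP_c6b81c_an
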