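import Mathlib

/-!
Kobayashi chains on bounded strongly pseudoconvex domains: definitions.
-/

open Complex Metric Set

namespace Pool.Agent.Lib.MP_c6b81c_an

/-- `ℂⁿ` with its usual (Hermitian) norm. -/
abbrev Cn (n : ℕ) := EuclideanSpace ℂ (Fin n)

/-- The Levi form `∑_{j,k} ρ_{j k̄}(q) v_j v̄_k` of a real function `ρ` of class `C²` at `q` in the
direction `v`, written with the real second derivative:
it equals `(D²ρ(q)(v, v) + D²ρ(q)(i v, i v)) / 4`. -/
noncomputable def leviForm {n : ℕ} (ρ : Cn n → ℝ) (q v : Cn n) : ℝ :=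
  (fderiv ℝ (fderiv ℝ ρ) q v v + fderiv ℝ (fderiv ℝ ρ) q (I • v) (I • v)) / 4

/-- `Ω ⊆ ℂⁿ` is a bounded strongly pseudoconvex domain with `C²` boundary: `Ω` is open, connected
(and nonempty), bounded, and it has a `C²` defining function `ρ` near its boundary (with `dρ ≠ 0`
on the boundary) whose Levi form is positive definite on the complex tangent space
`{v : dρ(q)(v) = 0, dρ(q)(i v) = 0}` at every boundary point `q`. -/
structure IsStronglyPseudoconvexDomain {n : ℕ} (Ω : Set (Cn n)) : Prop where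
  isOpen : IsOpen Ω
  isConnected : IsConnected Ω
  isBounded : Bornology.IsBounded Ω
  defining : ∃ (U : Set (Cn n)) (ρ : Cn n → ℝ), IsOpen U ∧ frontier Ω ⊆ U ∧ ContDiffOn ℝ 2 ρ U ∧
    Ω ∩ U = {x ∈ U | ρ x < 0} ∧
    (∀ q ∈ frontier Ω, ρ q = 0 ∧ fderiv ℝ ρ q ≠ 0) ∧
    ∀ q ∈ frontier Ω, ∀ v : Cn n, v ≠ 0 → fderiv ℝ ρ q v = 0 → fderiv ℝ ρ q (I • v) = 0 →
      0 < leviForm ρ q v

/-- The Poincaré distance `artanh |(a - b) / (1 - ā b)|` of the unit disc. -/
noncomputable def poincareDist (a b : ℂ) : ℝ :=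
  Real.artanh ‖(a - b) / (1 - (starRingEnd ℂ) a * b)‖

/-- A Kobayashi chain of `m` discs from `z` to `w` in `Ω`: points `z = p 0, …, p m = w` of `Ω`,
holomorphic maps `f 0, …, f (m-1)` from the unit disc to `Ω` and points `a j, b j` of the unit
disc with `f j (a j) = p j` and `f j (b j) = p (j+1)` for `j < m`. (The values of `p` beyond `m`
and of `f, a, b` beyond `m - 1` are irrelevant.) -/
structure KobayashiChain {n : ℕ} (Ω : Set (Cn n)) (m : ℕ) (z w : Cn n) where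
  p : ℕ → Cn n
  f : ℕ → ℂ → Cn n
  a : ℕ → ℂ
  b : ℕ → ℂ
  start : p 0 = z
  finish : p m = w
  mem : ∀ j ≤ m, p j ∈ Ω
  holo : ∀ j < m, DifferentiableOn ℂ (f j) (ball (0 : ℂ) 1)
  maps : ∀ j < m, MapsTo (f j) (ball (0 : ℂ) 1) Ω
  a_mem : ∀ j < m, a j ∈ ball (0 : ℂ) 1
  b_mem : ∀ j < m, b j ∈ ball (0 : ℂ) 1
  f_a : ∀ j < m, f j (a j) = p j
  f_b : ∀ j < m, f j (b j) = p (j + 1)

/-- The length `∑_{j<m} ρ(a_j, b_j)` of a chain of `m` discs. -/
noncomputable def KobayashiChain.length {n : ℕ} {Ω : Set (Cn n)} {m : ℕ} {z w : Cn n}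
    (c : KobayashiChain Ω m z w) : ℝ :=
  ∑ j ∈ Finset.range m, poincareDist (c.a j) (c.b j)

/-- The Kobayashi distance: the infimum of the lengths of all chains from `z` to `w`, with any
number of discs. -/
noncomputable def kobayashiDist {n : ℕ} (Ω : Set (Cn n)) (z w : Cn n) : ℝ :=
  sInf {L : ℝ | ∃ (m : ℕ) (c : KobayashiChain Ω m z w), c.length = L}

end Pool.Agent.Lib.MP_c6b81c_an
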