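import Pool.Agent.Lib.MP_c6b81c_an.Example

/-!
Existence of the thin strongly pseudoconvex neighbourhoods of the zigzag.
-/

open Complex Metric Set Topology

namespace Pool.Agent.Lib.MP_c6b81c_an

/-- For every `N` there is `R` such that for every `A ≥ 0` there is a strongly pseudoconvex
domain `Ω` which contains all discs of the zigzag and on which the equation of the zigzag is
of size `O(A^{-1/2})`, inside a fixed region. -/
theorem exists_domain (m N : ℕ) : ∃ R : ℝ, ∀ A : ℝ, 0 ≤ A → ∃ Ω : Set (Cn (m + 2)),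
    IsStronglyPseudoconvexDomain Ω ∧
    (∀ x ∈ Ω, A * ‖zig N x‖ ^ 2 ≤ 2 ∧ ‖x 0 - x 1 - 1 / 2‖ ≤ 3 / 2 ∧ ‖x‖ ≤ R) ∧
    ∀ j ≤ 2 * N, MapsTo (disc m j) (ball 0 1) Ω := by
  set B : ℝ := 2 * N + 2 with hB
  have hB0 : 0 < B := by positivity
  set δ : ℝ := 1 / (16 * B ^ 2) with hδ
  have hδ0 : 0 < δ := by positivity
  have hδB : δ * B ^ 2 = 1 / 16 := by rw [hδ]; field_simp
  set ε : ℝ := 1 / (16 * B) with hε
  have hε0 : 0 < ε := by positivity
  have hεB : ε * B = 1 / 16 := by rw [hε]; field_simp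
  refine ⟨8 * B, fun A hA => ?_⟩
  obtain ⟨a, c, ha, hc1, hc2, hreg⟩ := exists_regular_perturbation (Fun N A δ : Cn (m + 2) → ℝ)
    (Fun_contDiff N A δ) hε0 (show (5 / 4 : ℝ) < 3 / 2 by norm_num)
  set F : Cn (m + 2) → ℝ := fun x => Fun N A δ x + a x with hF
  have hFc : ContDiff ℝ 2 F := (Fun_contDiff N A δ).add a.contDiff
  -- estimates on the region
  have hax : ∀ x, |a x| ≤ ε * ‖x‖ := by
    intro x
    have h1 : |a x| ≤ ‖a‖ * ‖x‖ := a.le_opNorm x
    have h2 : ‖a‖ * ‖x‖ ≤ ε * ‖x‖ := mul_le_mul_of_nonneg_right ha.le (norm_nonneg x)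
    linarith
  have hregion : ∀ x, F x < c → A * ‖zig N x‖ ^ 2 ≤ 2 ∧ ‖x 0 - x 1 - 1 / 2‖ ≤ 3 / 2 ∧
      ‖x‖ ≤ 8 * B := by
    intro x hx
    have h1 : A * ‖zig N x‖ ^ 2 + (‖x 0 - x 1 - 1 / 2‖ ^ 2 + δ * ‖x‖ ^ 2) + a x < c := hx
    have h2 := (abs_le.mp (hax x)).1
    have h3 : ε * ‖x‖ ≤ δ * ‖x‖ ^ 2 / 2 + 1 / 32 := by
      have e1 : ε = δ * B := by rw [hε, hδ]; field_simp
      have e2 : 0 ≤ δ * (‖x‖ - B) ^ 2 := by positivity
      rw [e1]
      nlinarith
    have p1 : 0 ≤ A * ‖zig N x‖ ^ 2 := by positivity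
    have p2 : 0 ≤ ‖x 0 - x 1 - 1 / 2‖ ^ 2 := by positivity
    have p3 : 0 ≤ δ * ‖x‖ ^ 2 := by positivity
    refine ⟨by linarith, ?_, ?_⟩
    · have : ‖x 0 - x 1 - 1 / 2‖ ^ 2 ≤ (3 / 2) ^ 2 := by linarith
      exact le_of_sq_le_sq this (by norm_num)
    · have h4 : δ * ‖x‖ ^ 2 ≤ 4 := by linarith
      have h5 : ‖x‖ ^ 2 ≤ (8 * B) ^ 2 := by
        have e3 : δ * (8 * B) ^ 2 = 4 := by
          calc δ * (8 * B) ^ 2 = 64 * (δ * B ^ 2) := by ring
            _ = 4 := by rw [hδB]; norm_num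
        by_contra hcon
        push Not at hcon
        nlinarith [mul_lt_mul_of_pos_left hcon hδ0]
      exact le_of_sq_le_sq h5 (by positivity)
  have hbd : Bornology.IsBounded {x | F x < c} := by
    apply (isBounded_closedBall (x := (0 : Cn (m + 2))) (r := 8 * B)).subset
    intro x hx
    rw [mem_closedBall_zero_iff]
    exact (hregion x hx).2.2
  have hdisc : ∀ j ≤ 2 * N, ∀ ζ ∈ ball (0 : ℂ) 1, F (disc m j ζ) < c := by
    intro j hj ζ hζ
    have hζ1 : ‖ζ‖ < 1 := by simpa using hζ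
    have h1 : F (disc m j ζ) = A * ‖zig N (disc m j ζ)‖ ^ 2 +
      (‖(disc m j ζ) 0 - (disc m j ζ) 1 - 1 / 2‖ ^ 2 + δ * ‖disc m j ζ‖ ^ 2) +
        a (disc m j ζ) := rfl
    rw [h1, disc_zig hj, disc_s, norm_zero]
    have h2 : ‖disc m j ζ‖ ≤ B := disc_norm hj hζ1.le
    have h3 := (abs_le.mp (hax (disc m j ζ))).2
    have h4 : ε * ‖disc m j ζ‖ ≤ ε * B := mul_le_mul_of_nonneg_left h2 hε0.le
    have h5 : δ * ‖disc m j ζ‖ ^ 2 ≤ δ * B ^ 2 := by
      apply mul_le_mul_of_nonneg_left _ hδ0.le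
      exact pow_le_pow_left₀ (norm_nonneg _) h2 2
    have h6 : ‖ζ‖ ^ 2 < 1 := by nlinarith [norm_nonneg ζ]
    have h7 : A * (0 : ℝ) ^ 2 = 0 := by ring
    linarith
  set y : Cn (m + 2) := disc m 0 0 with hy
  have hyc : F y < c := hdisc 0 (Nat.zero_le _) 0 (mem_ball_self one_pos)
  set U : Set (Cn (m + 2)) := {x | F x < c} with hU
  have himg : ∀ j, IsPreconnected (disc m j '' ball 0 1) := fun j =>
    ((convex_ball (0 : ℂ) 1).isPreconnected).image _ (disc_differentiable m j).continuous.continuousOn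
  have hmaps : ∀ j ≤ 2 * N, disc m j '' ball 0 1 ⊆ connectedComponentIn U y := by
    intro j
    induction j with
    | zero =>
      intro hj
      apply (himg 0).subset_connectedComponentIn ⟨0, mem_ball_self one_pos, rfl⟩
      rintro _ ⟨ζ, hζ, rfl⟩
      exact hdisc 0 hj ζ hζ
    | succ j ih =>
      intro hj
      have h1 : disc m j (1 / 2) ∈ connectedComponentIn U y := by
        apply ih (by omega)
        exact ⟨1 / 2, by simp; norm_num, rfl⟩
      have h2 : disc m j (1 / 2) ∈ disc m (j + 1) '' ball 0 1 := by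
        rw [disc_link]
        exact ⟨-(1 / 2), by simp; norm_num, rfl⟩
      rw [connectedComponentIn_eq h1]
      apply (himg (j + 1)).subset_connectedComponentIn h2
      rintro _ ⟨ζ, hζ, rfl⟩
      exact hdisc (j + 1) hj ζ hζ
  refine ⟨connectedComponentIn U y, ?_, ?_, ?_⟩
  · apply component_spd F hFc c hreg hbd _ y hyc
    intro x v hv
    rw [hF, levi_add _ _ (Fun_contDiff N A δ) a.contDiff, levi_linear, add_zero]
    exact Fun_levi N hA hδ0 x v hv
  · intro x hx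
    have hxU : x ∈ U := connectedComponentIn_subset U y hx
    exact hregion x hxU
  · intro j hj ζ hζ
    exact hmaps j hj ⟨ζ, hζ, rfl⟩

end Pool.Agent.Lib.MP_c6b81c_an
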