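import Pool.Agent.Lib.MP_c6b81c_an.Defs

/-!
Computation of Levi forms.
-/

open Complex Metric Set Topology RealInnerProductSpace

namespace Pool.Agent.Lib.MP_c6b81c_an

variable {n : ℕ}

lemma levi_add (f g : Cn n → ℝ) (hf : ContDiff ℝ 2 f) (hg : ContDiff ℝ 2 g) (q v : Cn n) :
    leviForm (fun x => f x + g x) q v = leviForm f q v + leviForm g q v := by
  have h1 : fderiv ℝ (fun x => f x + g x) = fun x => fderiv ℝ f x + fderiv ℝ g x := by
    ext x : 1
    exact fderiv_fun_add ((hf.differentiable (by norm_num)) x) ((hg.differentiable (by norm_num)) x)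
  have h2 : fderiv ℝ (fun x => fderiv ℝ f x + fderiv ℝ g x) q =
      fderiv ℝ (fderiv ℝ f) q + fderiv ℝ (fderiv ℝ g) q := by
    apply fderiv_fun_add
    · exact ((hf.fderiv_right (m := 1) (by norm_num)).differentiable (by norm_num)) q
    · exact ((hg.fderiv_right (m := 1) (by norm_num)).differentiable (by norm_num)) q
  unfold leviForm
  rw [h1, h2]
  simp only [_root_.add_apply]
  ring

lemma levi_const_mul (f : Cn n → ℝ) (hf : ContDiff ℝ 2 f) (c : ℝ) (q v : Cn n) :
    leviForm (fun x => c * f x) q v = c * leviForm f q v := by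
  have h1 : fderiv ℝ (fun x => c * f x) = fun x => c • fderiv ℝ f x := by
    ext x : 1
    exact fderiv_const_mul ((hf.differentiable (by norm_num)) x) c
  have h2 : fderiv ℝ (fun x => c • fderiv ℝ f x) q = c • fderiv ℝ (fderiv ℝ f) q := by
    have h3 := ((hf.fderiv_right (m := 1) (by norm_num)).differentiable (by norm_num)) q
    exact (h3.hasFDerivAt.const_smul c).fderiv
  unfold leviForm
  rw [h1, h2]
  simp only [_root_.smul_apply, smul_eq_mul]
  ring

lemma levi_linear (a : Cn n →L[ℝ] ℝ) (q v : Cn n) : leviForm (fun x => a x) q v = 0 := by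
  have h1 : fderiv ℝ (fun x => a x) = fun _ => a := by
    ext x : 1
    exact a.fderiv
  unfold leviForm
  rw [h1]
  simp

lemma levi_sum {ι : Type*} (s : Finset ι) (f : ι → Cn n → ℝ) (hf : ∀ i ∈ s, ContDiff ℝ 2 (f i))
    (q v : Cn n) : leviForm (fun x => ∑ i ∈ s, f i x) q v = ∑ i ∈ s, leviForm (f i) q v := by
  classical
  induction s using Finset.induction_on with
  | empty => simpa using levi_linear (0 : Cn n →L[ℝ] ℝ) q v
  | insert i s his ih =>
    simp only [Finset.sum_insert his]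
    rw [levi_add (f i) (fun x => ∑ i ∈ s, f i x) (hf i (Finset.mem_insert_self _ _))
      (ContDiff.sum (fun j hj => hf j (Finset.mem_insert_of_mem hj))),
      ih (fun j hj => hf j (Finset.mem_insert_of_mem hj))]

lemma contDiff_real_of_holo (g : Cn n → ℂ) (hg : ContDiff ℂ 2 g) : ContDiff ℝ 2 g :=
  hg.restrict_scalars ℝ

/-- The Levi form of `|g|²` for holomorphic `g` is `|dg(v)|²`. -/
lemma levi_normSq_holo (g : Cn n → ℂ) (hg : ContDiff ℂ 2 g) (q v : Cn n) :
    leviForm (fun x => ‖g x‖ ^ 2) q v = ‖fderiv ℂ g q v‖ ^ 2 := by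
  have hgR : ContDiff ℝ 2 g := hg.restrict_scalars ℝ
  have hgd : ∀ x, HasFDerivAt g ((fderiv ℂ g x).restrictScalars ℝ) x := fun x =>
    (((hg.differentiable (by norm_num)) x).hasFDerivAt).restrictScalars ℝ
  have hh : ContDiff ℝ 2 (fun x => ‖g x‖ ^ 2) := hgR.norm_sq ℝ
  have h1 : ∀ x u, fderiv ℝ (fun x => ‖g x‖ ^ 2) x u = 2 * ⟪g x, fderiv ℂ g x u⟫ := by
    intro x u
    rw [(hgd x).norm_sq.fderiv]
    simp
    ring
  have hD : ContDiff ℂ 1 (fderiv ℂ g) := hg.fderiv_right (by norm_num)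
  have key : ∀ w u, fderiv ℝ (fderiv ℝ (fun x => ‖g x‖ ^ 2)) q w u =
      2 * (⟪g q, fderiv ℂ (fderiv ℂ g) q w u⟫ + ⟪fderiv ℂ g q w, fderiv ℂ g q u⟫) := by
    intro w u
    have hΨ : DifferentiableAt ℝ (fderiv ℝ (fun x => ‖g x‖ ^ 2)) q :=
      ((hh.fderiv_right (m := 1) (by norm_num)).differentiable (by norm_num)) q
    have e1 : fderiv ℝ (fderiv ℝ (fun x => ‖g x‖ ^ 2)) q w u =
        fderiv ℝ (fun x => fderiv ℝ (fun x => ‖g x‖ ^ 2) x u) q w := by
      rw [fderiv_clm_apply hΨ (differentiableAt_const u)]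
      simp
    rw [e1]
    have e2 : (fun x => fderiv ℝ (fun x => ‖g x‖ ^ 2) x u) =
        fun x => 2 * ⟪g x, fderiv ℂ g x u⟫ := by
      ext x
      exact h1 x u
    rw [e2]
    have hDu : HasFDerivAt (fun x => fderiv ℂ g x u)
        (((ContinuousLinearMap.apply ℂ ℂ u).comp (fderiv ℂ (fderiv ℂ g) q)).restrictScalars ℝ) q := by
      have h3 : HasFDerivAt (fderiv ℂ g) (fderiv ℂ (fderiv ℂ g) q) q :=
        ((hD.differentiable (by norm_num)) q).hasFDerivAt
      have h4 : HasFDerivAt (fun x => fderiv ℂ g x u)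
          ((ContinuousLinearMap.apply ℂ ℂ u).comp (fderiv ℂ (fderiv ℂ g) q)) q :=
        (ContinuousLinearMap.apply ℂ ℂ u).hasFDerivAt.comp q h3
      exact h4.restrictScalars ℝ
    have h5 := ((hgd q).inner ℝ hDu).const_mul 2
    rw [h5.fderiv]
    simp
  unfold leviForm
  rw [key, key]
  simp only [map_smul, _root_.smul_apply, smul_eq_mul]
  have e3 : ∀ z w : ℂ, ⟪z, w⟫ = z.re * w.re + z.im * w.im := by
    intro z w
    simp [Complex.inner, Complex.mul_re]
    ring
  simp only [e3, Complex.mul_re, Complex.mul_im, Complex.I_re, Complex.I_im]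
  rw [← Complex.normSq_eq_norm_sq, Complex.normSq_apply]
  ring

lemma levi_norm_sq (q v : Cn n) : leviForm (fun x => ‖x‖ ^ 2) q v = ‖v‖ ^ 2 := by
  have h1 : (fun x : Cn n => ‖x‖ ^ 2) = fun x => ∑ i, ‖x i‖ ^ 2 := by
    ext x
    rw [EuclideanSpace.norm_sq_eq]
  have hproj : ∀ i : Fin n, ContDiff ℂ 2 (fun x : Cn n => x i) := fun i =>
    (EuclideanSpace.proj (𝕜 := ℂ) i : Cn n →L[ℂ] ℂ).contDiff
  rw [h1, levi_sum, EuclideanSpace.norm_sq_eq]
  · apply Finset.sum_congr rfl
    intro i _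
    rw [levi_normSq_holo _ (hproj i)]
    have : fderiv ℂ (fun x : Cn n => x i) q = (EuclideanSpace.proj (𝕜 := ℂ) i : Cn n →L[ℂ] ℂ) :=
      (EuclideanSpace.proj (𝕜 := ℂ) i : Cn n →L[ℂ] ℂ).fderiv
    rw [this]
    rfl
  · intro i _
    exact ((hproj i).restrict_scalars ℝ).norm_sq ℝ

end Pool.Agent.Lib.MP_c6b81c_an
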