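import Mathlib

/-!
A generic linear perturbation of a `C²` function on a finite-dimensional space has countably many
critical points, so almost every level is regular.
-/

open Metric Set MeasureTheory Topology

namespace Pool.Agent.Lib.MP_c6b81c_an

variable {E : Type*} [NormedAddCommGroup E] [NormedSpace ℝ E] [FiniteDimensional ℝ E]

lemma countable_fiber_of_det_ne_zero (G : E → E) (hG : ContDiff ℝ 1 G) (e : E)
    (he : ∀ x, G x = e → (fderiv ℝ G x).det ≠ 0) : {x | G x = e}.Countable := by
  have hsep : SecondCountableTopology E := inferInstance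
  set Z : Set E := {x | G x = e} with hZ
  have hd : DiscreteTopology Z := by
    rw [discreteTopology_subtype_iff]
    intro x hx
    have hdet := he x hx
    have hstrict : HasStrictFDerivAt G
        (((fderiv ℝ G x).toContinuousLinearEquivOfDetNeZero hdet : E ≃L[ℝ] E) : E →L[ℝ] E) x := by
      rw [ContinuousLinearMap.coe_toContinuousLinearEquivOfDetNeZero]
      exact (hG.contDiffAt).hasStrictFDerivAt (by norm_num)
    have hsrc := hstrict.mem_toOpenPartialHomeomorph_source
    have hopen := (hstrict.toOpenPartialHomeomorph G).open_source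
    have hinj := (hstrict.toOpenPartialHomeomorph G).injOn
    rw [HasStrictFDerivAt.toOpenPartialHomeomorph_coe] at hinj
    have hev : ∀ᶠ y in 𝓝 x, y ∈ (hstrict.toOpenPartialHomeomorph G).source :=
      hopen.mem_nhds hsrc
    rw [← Filter.empty_mem_iff_bot, Filter.mem_inf_principal, mem_nhdsWithin_iff_eventually]
    filter_upwards [hev] with y hy hyx hyZ
    exact hyx (hinj hy hsrc (hyZ.trans (hx : G x = e).symm))
  have : Countable Z := TopologicalSpace.separableSpace_iff_countable.mp inferInstance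
  exact this

/-- For a `C²` function `f` there are an arbitrarily small linear form `a` and a level `c` in a
given interval such that `c` is a regular value of `f + a`. -/
theorem exists_regular_perturbation (f : E → ℝ) (hf : ContDiff ℝ 2 f) {ε c1 c2 : ℝ}
    (hε : 0 < ε) (hc : c1 < c2) :
    ∃ (a : E →L[ℝ] ℝ) (c : ℝ), ‖a‖ < ε ∧ c1 < c ∧ c < c2 ∧
      ∀ x, f x + a x = c → fderiv ℝ (fun y => f y + a y) x ≠ 0 := by
  let _ : MeasurableSpace E := borel E
  have _ : BorelSpace E := ⟨rfl⟩
  let μ : Measure E := Measure.addHaar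
  have hfin : Module.finrank ℝ (E →L[ℝ] ℝ) = Module.finrank ℝ E := by
    rw [← (LinearMap.toContinuousLinearMap : (E →ₗ[ℝ] ℝ) ≃ₗ[ℝ] (E →L[ℝ] ℝ)).finrank_eq]
    exact Subspace.dual_finrank_eq
  let Φ : (E →L[ℝ] ℝ) ≃L[ℝ] E := ContinuousLinearEquiv.ofFinrankEq hfin
  have hfd : ContDiff ℝ 1 (fderiv ℝ f) := hf.fderiv_right (by norm_num)
  set G : E → E := fun x => Φ (fderiv ℝ f x) with hGdef
  have hG : ContDiff ℝ 1 G := Φ.contDiff.comp hfd
  set S : Set E := {x | (fderiv ℝ G x).det = 0} with hS
  have hnull : μ (G '' S) = 0 := by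
    apply addHaar_image_eq_zero_of_det_fderivWithin_eq_zero μ (f' := fderiv ℝ G)
    · intro x _
      exact ((hG.differentiable (by norm_num)) x).hasFDerivAt.hasFDerivWithinAt
    · intro x hx
      exact hx
  have hopen : IsOpen {e : E | ‖Φ.symm e‖ < ε} :=
    isOpen_lt (Φ.symm.continuous.norm) continuous_const
  have hpos : 0 < μ {e : E | ‖Φ.symm e‖ < ε} := by
    apply hopen.measure_pos μ
    exact ⟨0, by simpa using hε⟩
  obtain ⟨e, he1, he2⟩ : ∃ e, ‖Φ.symm e‖ < ε ∧ e ∉ G '' S := by
    by_contra hcon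
    push Not at hcon
    have : μ {e : E | ‖Φ.symm e‖ < ε} ≤ μ (G '' S) := measure_mono (fun e he => hcon e he)
    rw [hnull] at this
    exact absurd hpos (not_lt.mpr this)
  have hZ : {x | G x = e}.Countable := by
    apply countable_fiber_of_det_ne_zero G hG e
    intro x hx hdet
    exact he2 ⟨x, hdet, hx⟩
  set a : E →L[ℝ] ℝ := -(Φ.symm e) with ha
  have hvals : ((fun x => f x + a x) '' {x | G x = e}).Countable := hZ.image _
  obtain ⟨c, hc', hcn⟩ : ∃ c ∈ Ioo c1 c2, c ∉ ((fun x => f x + a x) '' {x | G x = e}) := by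
    have hdense := hvals.dense_compl ℝ
    obtain ⟨c, hc1, hc2⟩ := hdense.inter_open_nonempty (Ioo c1 c2) isOpen_Ioo (nonempty_Ioo.mpr hc)
    exact ⟨c, hc1, hc2⟩
  refine ⟨a, c, ?_, hc'.1, hc'.2, ?_⟩
  · rw [ha, norm_neg]
    exact he1
  · intro x hx hder
    apply hcn
    refine ⟨x, ?_, hx⟩
    have h1 : fderiv ℝ (fun y => f y + a y) x = fderiv ℝ f x + a := by
      have hfx : DifferentiableAt ℝ f x := (hf.differentiable (by norm_num)) x
      rw [fderiv_fun_add hfx a.differentiableAt, ContinuousLinearMap.fderiv]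
    rw [h1] at hder
    have h2 : fderiv ℝ f x = Φ.symm e := by
      rw [ha] at hder
      exact eq_of_sub_eq_zero (by rw [sub_eq_add_neg]; exact hder)
    show Φ (fderiv ℝ f x) = e
    rw [h2]
    exact Φ.apply_symm_apply e

end Pool.Agent.Lib.MP_c6b81c_an
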