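import Pool.Agent.Lib.MP_c6b81c_an.Component
import Pool.Agent.Lib.MP_c6b81c_an.Levi
import Pool.Agent.Lib.MP_c6b81c_an.Sard

/-!
Thin strongly pseudoconvex neighbourhoods of a long zigzag of complex lines in `ℂ^(m+2)`.
-/

open Complex Metric Set Topology

namespace Pool.Agent.Lib.MP_c6b81c_an

variable {m : ℕ}

/-- The equation of the zigzag: the lines `x₁ = k` and `x₀ = k + 1`, `0 ≤ k ≤ N`. -/
noncomputable def zig (N : ℕ) (x : Cn (m + 2)) : ℂ :=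
  ∏ k ∈ Finset.range (N + 1), ((x 1 - (k : ℂ)) * (x 0 - ((k : ℂ) + 1)))

/-- The strictly plurisubharmonic function. -/
noncomputable def Fun (N : ℕ) (A δ : ℝ) (x : Cn (m + 2)) : ℝ :=
  A * ‖zig N x‖ ^ 2 + (‖x 0 - x 1 - 1 / 2‖ ^ 2 + δ * ‖x‖ ^ 2)

/-- The vector `(α, β, 0, …, 0)`. -/
noncomputable def vec (m : ℕ) (α β : ℂ) : Cn (m + 2) :=
  α • EuclideanSpace.single 0 (1 : ℂ) + β • EuclideanSpace.single 1 (1 : ℂ)

@[simp] lemma vec_zero (α β : ℂ) : (vec m α β) 0 = α := by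
  simp [vec]

@[simp] lemma vec_one (α β : ℂ) : (vec m α β) 1 = β := by
  simp [vec]

lemma norm_vec_le (α β : ℂ) : ‖vec m α β‖ ≤ ‖α‖ + ‖β‖ := by
  unfold vec
  refine (norm_add_le _ _).trans ?_
  rw [norm_smul, norm_smul]
  simp

/-- The discs of the zigzag. -/
noncomputable def disc (m : ℕ) (j : ℕ) (ζ : ℂ) : Cn (m + 2) :=
  if Even j then vec m (((j / 2 : ℕ) : ℂ) + 1 / 2 + ζ) ((j / 2 : ℕ) : ℂ)
  else vec m (((j / 2 : ℕ) : ℂ) + 1) (((j / 2 : ℕ) : ℂ) + 1 / 2 + ζ)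

lemma disc_differentiable (m j : ℕ) : Differentiable ℂ (disc m j) := by
  by_cases hj : Even j
  · have : disc m j = fun ζ => vec m (((j / 2 : ℕ) : ℂ) + 1 / 2 + ζ) ((j / 2 : ℕ) : ℂ) := by
      ext ζ : 1
      simp [disc, hj]
    rw [this]
    unfold vec
    fun_prop
  · have : disc m j = fun ζ => vec m (((j / 2 : ℕ) : ℂ) + 1) (((j / 2 : ℕ) : ℂ) + 1 / 2 + ζ) := by
      ext ζ : 1
      simp [disc, hj]
    rw [this]
    unfold vec
    fun_prop

lemma disc_link (m j : ℕ) : disc m j (1 / 2) = disc m (j + 1) (-(1 / 2)) := by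
  rcases Nat.even_or_odd' j with ⟨k, rfl | rfl⟩
  · have h1 : Even (2 * k) := even_two_mul k
    have h2 : ¬ Even (2 * k + 1) := by simp
    have e1 : 2 * k / 2 = k := by omega
    have e2 : (2 * k + 1) / 2 = k := by omega
    simp only [disc, h1, h2, if_true, if_false, e1, e2]
    congr 1 <;> ring
  · have h1 : ¬ Even (2 * k + 1) := by simp
    have h2 : Even (2 * k + 1 + 1) := ⟨k + 1, by ring⟩
    have e1 : (2 * k + 1) / 2 = k := by omega
    have e2 : (2 * k + 1 + 1) / 2 = k + 1 := by omega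
    simp only [disc, h1, h2, if_true, if_false, e1, e2]
    push_cast
    congr 1 <;> ring

lemma disc_zig {m N j : ℕ} (hj : j ≤ 2 * N) (ζ : ℂ) : zig N (disc m j ζ) = 0 := by
  unfold zig
  apply Finset.prod_eq_zero (i := j / 2) (Finset.mem_range.mpr (by omega))
  by_cases h : Even j
  · simp [disc, h]
  · simp [disc, h]

lemma disc_s (m j : ℕ) (ζ : ℂ) : ‖(disc m j ζ) 0 - (disc m j ζ) 1 - 1 / 2‖ = ‖ζ‖ := by
  by_cases h : Even j
  · simp only [disc, h, if_true, vec_zero, vec_one]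
    congr 1
    ring
  · simp only [disc, h, if_false, vec_zero, vec_one]
    rw [← norm_neg ζ]
    congr 1
    ring

lemma disc_norm {m N j : ℕ} (hj : j ≤ 2 * N) {ζ : ℂ} (hζ : ‖ζ‖ ≤ 1) :
    ‖disc m j ζ‖ ≤ 2 * N + 2 := by
  have hk : ((j / 2 : ℕ) : ℝ) ≤ N := by
    exact_mod_cast (show j / 2 ≤ N by omega)
  have hk0 : (0 : ℝ) ≤ ((j / 2 : ℕ) : ℝ) := Nat.cast_nonneg _
  have h2 : ‖((j / 2 : ℕ) : ℂ) + 1 / 2 + ζ‖ ≤ ((j / 2 : ℕ) : ℝ) + 1 / 2 + 1 := by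
    refine (norm_add_le _ _).trans (add_le_add ((norm_add_le _ _).trans ?_) hζ)
    simp
  by_cases h : Even j
  · simp only [disc, h, if_true]
    refine (norm_vec_le _ _).trans ?_
    have h3 : ‖((j / 2 : ℕ) : ℂ)‖ = ((j / 2 : ℕ) : ℝ) := by simp
    rw [h3]
    linarith
  · simp only [disc, h, if_false]
    refine (norm_vec_le _ _).trans ?_
    have h3 : ‖((j / 2 : ℕ) : ℂ) + 1‖ ≤ ((j / 2 : ℕ) : ℝ) + 1 := by
      refine (norm_add_le _ _).trans ?_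
      simp
    have h4 : ((j / 2 : ℕ) : ℝ) + 1 ≤ N := by
      have : j / 2 + 1 ≤ N := by
        have : ¬ Even j := h
        rw [Nat.not_even_iff_odd] at this
        obtain ⟨k, rfl⟩ := this
        omega
      exact_mod_cast this
    linarith

lemma proj_contDiff (i : Fin (m + 2)) : ContDiff ℂ 2 (fun x : Cn (m + 2) => x i) :=
  (EuclideanSpace.proj (𝕜 := ℂ) i : Cn (m + 2) →L[ℂ] ℂ).contDiff

lemma zig_contDiff (N : ℕ) : ContDiff ℂ 2 (zig N : Cn (m + 2) → ℂ) := by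
  unfold zig
  apply contDiff_prod
  intro k _
  exact ((proj_contDiff 1).sub contDiff_const).mul ((proj_contDiff 0).sub contDiff_const)

lemma s_contDiff : ContDiff ℂ 2 (fun x : Cn (m + 2) => x 0 - x 1 - 1 / 2) :=
  ((proj_contDiff 0).sub (proj_contDiff 1)).sub contDiff_const

lemma norm_sq_contDiff (n : ℕ) : ContDiff ℝ 2 (fun x : Cn n => ‖x‖ ^ 2) := by
  have h1 : (fun x : Cn n => ‖x‖ ^ 2) = fun x => ∑ i, ‖x i‖ ^ 2 := by
    ext x
    rw [EuclideanSpace.norm_sq_eq]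
  rw [h1]
  apply ContDiff.sum
  intro i _
  have : ContDiff ℂ 2 (fun x : Cn n => x i) :=
    (EuclideanSpace.proj (𝕜 := ℂ) i : Cn n →L[ℂ] ℂ).contDiff
  exact (this.restrict_scalars ℝ).norm_sq ℝ

lemma Fun_contDiff (N : ℕ) (A δ : ℝ) : ContDiff ℝ 2 (Fun N A δ : Cn (m + 2) → ℝ) := by
  unfold Fun
  apply ContDiff.add
  · exact contDiff_const.mul (((zig_contDiff N).restrict_scalars ℝ).norm_sq ℝ)
  · apply ContDiff.add
    · exact ((s_contDiff).restrict_scalars ℝ).norm_sq ℝ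
    · exact contDiff_const.mul (norm_sq_contDiff _)

lemma Fun_levi (N : ℕ) {A δ : ℝ} (hA : 0 ≤ A) (hδ : 0 < δ) (x v : Cn (m + 2)) (hv : v ≠ 0) :
    0 < leviForm (Fun N A δ) x v := by
  have c1 : ContDiff ℝ 2 (fun x : Cn (m + 2) => ‖zig N x‖ ^ 2) :=
    ((zig_contDiff N).restrict_scalars ℝ).norm_sq ℝ
  have c2 : ContDiff ℝ 2 (fun x : Cn (m + 2) => ‖x 0 - x 1 - 1 / 2‖ ^ 2) :=
    ((s_contDiff).restrict_scalars ℝ).norm_sq ℝ
  have c3 := norm_sq_contDiff (m + 2)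
  have e : (Fun N A δ : Cn (m + 2) → ℝ) = fun x => (fun x => A * ‖zig N x‖ ^ 2) x +
      (fun x => (fun x : Cn (m + 2) => ‖x 0 - x 1 - 1 / 2‖ ^ 2) x + (fun x => δ * ‖x‖ ^ 2) x) x :=
    rfl
  rw [e, levi_add _ _ (contDiff_const.mul c1) (c2.add (contDiff_const.mul c3)),
    levi_add _ _ c2 (contDiff_const.mul c3), levi_const_mul _ c1, levi_const_mul _ c3,
    levi_normSq_holo _ (zig_contDiff N), levi_normSq_holo _ s_contDiff, levi_norm_sq]
  have hv' : 0 < ‖v‖ ^ 2 := by positivity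
  have h1 : 0 ≤ A * ‖fderiv ℂ (zig N) x v‖ ^ 2 := by positivity
  have h2 : 0 ≤ ‖fderiv ℂ (fun x : Cn (m + 2) => x 0 - x 1 - 1 / 2) x v‖ ^ 2 := by positivity
  have h3 : 0 < δ * ‖v‖ ^ 2 := by positivity
  linarith

end Pool.Agent.Lib.MP_c6b81c_an
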